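import Pool.Agent.helper81.UH.Spec

/-! Row DEN of project uh (MP_a2a22c_al) -/

set_option autoImplicit false

namespace Pool.Agent.UH

open Matrix Pool.Agent.H48SL Pool.Agent.UG

theorem DEN (hCOI : COI_stmt) (hRAT : RAT_stmt) : DEN_stmt := by
  intro n N A H 𝔞 X f hD hDat hf hAH P hP
  have step1 : ∀ g ∈ H, dl X (yv g) ≠ 0 → ∀ h : SLZ (n + 1), dl X (yv h) ≠ 0 →
      ∀ (a b c : Fin (n + 1) → ℚ) (t : ℚ), ev P (dn (SS N X f h g a b c t)) = 0 := by
    intro g hgH hg h hh a b c t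
    obtain ⟨h1, -, h3⟩ := hRAT n N X f P a b c t
    obtain ⟨K, hK⟩ := h1 g hg
    have hF := h3.mul hK
    have h4 := hF.dense hD (fun x hx => by
      by_cases hx0 : dl X (yv x) = 0
      · rw [hx0, zero_mul]
      · rw [hCOI n N A H 𝔞 X f hDat hf hAH P hP x hx g hgH hx0 hg a b c t, mul_zero, mul_zero]) h
    rcases mul_eq_zero.1 h4 with h5 | h5
    · exact absurd h5 hh
    · rcases mul_eq_zero.1 h5 with h6 | h6
      · exact absurd h6 (pow_ne_zero K hh)
      · exact h6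
  intro h g hh hg a b c t
  obtain ⟨-, h2, h3⟩ := hRAT n N X f P a b c t
  obtain ⟨K, hK⟩ := h2 h hh
  have hF := h3.mul hK
  have h4 := hF.dense hD (fun x hx => by
    by_cases hx0 : dl X (yv x) = 0
    · rw [hx0, zero_mul]
    · rw [step1 x hx hx0 h hh a b c t, mul_zero, mul_zero]) g
  rcases mul_eq_zero.1 h4 with h5 | h5
  · exact absurd h5 hg
  · rcases mul_eq_zero.1 h5 with h6 | h6
    · exact absurd h6 (pow_ne_zero K hg)
    · exact h6

end Pool.Agent.UH
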