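import Pool.Agent.helper81.UH.Spec

/-! Row ELA of project uh (MP_a2a22c_al) -/

set_option autoImplicit false

namespace Pool.Agent.UH

open Matrix Pool.Agent.H48SL Pool.Agent.UG

private theorem ELA_exp {n : ℕ} (Z : MQ n) (hZ : Z * Z = 0) (c : ℚ) : IsNilpotent.exp (c • Z) = 1 + c • Z := by
  have h0 : (c • Z) ^ 2 = 0 := by
    rw [sq, smul_mul_assoc, mul_smul_comm, hZ, smul_zero, smul_zero]
  rw [IsNilpotent.exp_eq_sum h0, Finset.sum_range_succ, Finset.sum_range_succ, Finset.sum_range_zero]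
  simp

theorem ELA : ELA_stmt := by
  intro n N A H 𝔞 hn hD hLA hAH he0 hfin hex
  obtain ⟨Z, hZ𝔞, hZ0, hdn⟩ := hex
  have hcol : ∀ i, Z i 0 = 0 := (kill_iff Z).1 (he0 Z hZ𝔞)
  have hrow : ∀ (i : Fin n) (j : Fin (n + 1)), Z i.succ j = 0 := by
    intro i j
    refine Fin.cases ?_ (fun j' => ?_) j
    · exact hcol _
    · have := congrFun (congrFun hdn i) j'
      exact this
  have hZZ : Z * Z = 0 := by
    ext i j
    rw [Matrix.mul_apply, Fin.sum_univ_succ, hcol, zero_mul, zero_add]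
    simp [hrow]
  have hnil : ∀ Y ∈ 𝔞, IsNilpotent Y := by
    intro Y hY
    refine ⟨N, ?_⟩
    have h1 := hLA.nn (List.replicate N Y) (fun W hW => by
      rw [List.eq_of_mem_replicate hW]
      exact hY) (by rw [List.length_replicate])
    rw [List.prod_replicate] at h1
    exact h1
  obtain ⟨k, hk, a, haA, hqa⟩ := hLA.lat Z hZ𝔞
  have hk0 : (k : ℚ) ≠ 0 := by exact_mod_cast (by omega : k ≠ 0)
  rw [ELA_exp Z hZZ] at hqa
  -- the integral row
  have ha1 : ∀ i j, qg a i j = (1 : MQ (n + 1)) i j + (k : ℚ) * Z i j := by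
    intro i j
    rw [hqa]
    rfl
  set e : Fin (n + 1) → ℤ := Pi.single 0 1 with he
  set φ : Fin (n + 1) → ℤ := fun j => (a : Matrix (Fin (n + 1)) (Fin (n + 1)) ℤ) 0 j -
    (1 : Matrix (Fin (n + 1)) (Fin (n + 1)) ℤ) 0 j with hφ
  have hza : (a : Matrix (Fin (n + 1)) (Fin (n + 1)) ℤ) = 1 + vecMulVec e φ := by
    ext i j
    rw [Matrix.add_apply, vecMulVec_apply]
    refine Fin.cases ?_ (fun i' => ?_) i
    · rw [he, Pi.single_eq_same, one_mul, hφ]
      simp
    · have h1 := ha1 i'.succ j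
      rw [hrow, mul_zero, add_zero, qg_apply] at h1
      have h2 : e i'.succ = 0 := by
        rw [he]
        exact Pi.single_eq_of_ne (Fin.succ_ne_zero i') _
      rw [h2, zero_mul, add_zero]
      by_cases hij : i'.succ = j
      · subst hij
        rw [Matrix.one_apply_eq] at h1 ⊢
        exact_mod_cast h1
      · rw [Matrix.one_apply_ne hij] at h1 ⊢
        exact_mod_cast h1
  have haZ : qg a ≠ 1 := by
    intro h
    rw [hqa] at h
    have h1 : (k : ℚ) • Z = 0 := by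
      have := congrArg (fun M => M - 1) h
      simpa using this
    rcases smul_eq_zero.1 h1 with h2 | h2
    · exact hk0 h2
    · exact hZ0 h2
  have ha_ne : a ≠ 1 := by
    intro h
    apply haZ
    rw [h, qg_one]
  -- another element
  obtain ⟨Y, hY𝔞, hYn⟩ : ∃ Y ∈ 𝔞, ∀ c : ℚ, Y ≠ c • Z := by
    by_contra hcon
    push Not at hcon
    have h1 : 𝔞 ≤ Submodule.span ℚ {Z} := by
      intro Y hY
      obtain ⟨c, hc⟩ := hcon Y hY
      rw [hc]
      exact Submodule.smul_mem _ _ (Submodule.mem_span_singleton_self Z)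
    have h2 := Submodule.finrank_mono h1
    have h3 : Module.finrank ℚ (Submodule.span ℚ {Z}) ≤ 1 := (finrank_span_singleton hZ0).le
    omega
  obtain ⟨l, hl, g, hgA, hqg⟩ := hLA.lat Y hY𝔞
  have hl0 : (l : ℚ) ≠ 0 := by exact_mod_cast (by omega : l ≠ 0)
  have hlY : IsNilpotent ((l : ℚ) • Y) := hnil _ (𝔞.smul_mem _ hY𝔞)
  obtain ⟨hJ1, -, -, -, hJ5, -, -, -⟩ := EXJ (n + 1) ((l : ℚ) • Y) hlY
  have hge : qg g *ᵥ e0 n = e0 n := by
    rw [hqg]
    exact hJ5 (e0 n) (he0 _ (𝔞.smul_mem _ hY𝔞))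
  have hge' : (g : Matrix (Fin (n + 1)) (Fin (n + 1)) ℤ) *ᵥ e = e := by
    apply castV_inj
    rw [← qg_mulVec_castV, he, castV_single]
    exact hge
  have hφe : φ ⬝ᵥ e = 0 := by
    rw [he, dotProduct_single_one]
    have h1 := ha1 0 0
    rw [hcol, mul_zero, add_zero, qg_apply, Matrix.one_apply_eq] at h1
    have h2 : (a : Matrix (Fin (n + 1)) (Fin (n + 1)) ℤ) 0 0 = 1 := by exact_mod_cast h1
    rw [hφ]
    simp [h2]
  have hφk : castV φ = fun j => (k : ℚ) * Z 0 j := by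
    funext j
    have h1 := ha1 0 j
    rw [qg_apply] at h1
    simp only [castV, hφ]
    push_cast
    rw [h1]
    by_cases hj : (0 : Fin (n + 1)) = j
    · subst hj
      simp
    · rw [Matrix.one_apply_ne hj, Matrix.one_apply_ne hj]
      simp
  have hzm : ∀ m : ℤ, qg (a ^ m) = IsNilpotent.exp (((m : ℚ) * k) • Z) := by
    intro m
    have h1 : a = tv e φ := SL_ext (by rw [hza, tv_coe hφe])
    have hmφ : (m • φ) ⬝ᵥ e = 0 := by rw [smul_dotProduct, hφe, smul_zero]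
    rw [ELA_exp Z hZZ, h1, ← tv_zsmul_right hφe, qg_tv hmφ]
    congr 1
    ext i j
    rw [vecMulVec_apply, Matrix.smul_apply, smul_eq_mul]
    have h2 : castV (m • φ) j = (m : ℚ) * ((k : ℚ) * Z 0 j) := by
      have h3 := congrFun hφk j
      simp only [castV] at h3 ⊢
      rw [Pi.smul_apply, smul_eq_mul]
      push_cast
      rw [h3]
    rw [h2, he, castV_single]
    refine Fin.cases ?_ (fun i' => ?_) i
    · rw [Pi.single_eq_same]
      ring
    · rw [Pi.single_eq_of_ne (Fin.succ_ne_zero i'), hrow]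
      ring
  refine (final_coef (by rw [Fintype.card_fin]; omega) H e φ a g (hAH haA) (hAH hgA) ha_ne hza ?_ (Or.inr ?_)).1 hD
  · rw [hge', hφe]
    norm_num
  · intro i hi m him
    have h1 : qg (g ^ i) = qg (a ^ m) := by rw [him]
    rw [qg_pow, hzm m, hqg, hJ1 i] at h1
    obtain ⟨P, -, -, hP⟩ := LG EXJ (n + 1)
    have hn1 : IsNilpotent ((i : ℚ) • ((l : ℚ) • Y)) := hnil _ (𝔞.smul_mem _ (𝔞.smul_mem _ hY𝔞))
    have hn2 : IsNilpotent (((m : ℚ) * k) • Z) := hnil _ (𝔞.smul_mem _ hZ𝔞)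
    have h2 : (i : ℚ) • ((l : ℚ) • Y) = ((m : ℚ) * k) • Z := by
      rw [← hP _ hn1, ← hP _ hn2, h1]
    have hi0 : (i : ℚ) ≠ 0 := by exact_mod_cast (by omega : i ≠ 0)
    apply hYn (((i : ℚ) * l)⁻¹ * ((m : ℚ) * k))
    have h3 : ((i : ℚ) * l)⁻¹ * (i * l) = 1 := inv_mul_cancel₀ (mul_ne_zero hi0 hl0)
    rw [mul_smul, ← h2, smul_smul, smul_smul, mul_assoc, h3, one_smul]

end Pool.Agent.UH
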