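import Pool.Agent.helper81.UH.Spec

/-! Row EXF of project uh (MP_a2a22c_al) -/

set_option autoImplicit false

namespace Pool.Agent.UH

open Matrix Pool.Agent.H48SL Pool.Agent.UG

theorem EXF : EXF_stmt := by
  intro n N 𝔞 hN X hX
  have h0 : X ^ N = 0 := by
    have h1 := hN (List.replicate N X) (fun Y hY => by
      rw [List.eq_of_mem_replicate hY]
      exact hX) (by rw [List.length_replicate])
    rw [List.prod_replicate] at h1
    exact h1
  have hnil : IsNilpotent X := ⟨N, h0⟩
  have e1 : EX N X = IsNilpotent.exp X := by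
    unfold EX
    rw [IsNilpotent.exp_eq_sum h0]
  have h0' : (-X) ^ N = 0 := by
    rw [neg_pow, h0, mul_zero]
  have e2 : EX N (-X) = IsNilpotent.exp (-X) := by
    unfold EX
    rw [IsNilpotent.exp_eq_sum h0']
  refine ⟨h0, e1, ?_, ?_, ?_⟩
  · rw [e1, e2]
    exact IsNilpotent.exp_mul_exp_neg_self hnil
  · rw [e1, e2]
    exact IsNilpotent.exp_neg_mul_exp_self hnil
  · rcases Nat.eq_zero_or_pos N with h | h
    · subst h
      have h1 := hN [] (fun Y hY => absurd hY (by simp)) (by simp)
      rw [List.prod_nil] at h1
      unfold EX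
      rw [Finset.range_zero, Finset.sum_empty]
      exact h1.symm
    · unfold EX
      rw [Finset.sum_eq_single 0]
      · simp
      · intro i _ hi
        rw [zero_pow hi, smul_zero]
      · intro h1
        exact absurd (Finset.mem_range.2 h) h1

end Pool.Agent.UH
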